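import Pool.Agent.TH510.K9.Plane

set_option autoImplicit false

/-!
# A biplanar drawing of `K_9` with one crossing
-/

namespace Pool.Agent.TH510.K9

open Set

/-- Coordinates of the vertices in the two planes. -/
def P (i : Fin 2) (v : Fin 9) : ℤ × ℤ :=
  if i = 0 then
    [(9, 6), (2, 0), (6, 1), (4, 2), (4, 3), (8, 1), (1, 4), (0, 6), (8, 3)].getD v (0, 0)
  else
    [(6, 5), (9, 6), (7, 7), (2, 10), (4, 2), (0, 5), (3, 1), (0, 9), (10, 6)].getD v (0, 0)

/-- Edges of the second plane, as numbers `9 u + v` with `u < v`. -/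
def E2 : List ℕ := [3 * 9 + 7, 0 * 9 + 1, 6 * 9 + 8, 1 * 9 + 4, 4 * 9 + 8, 3 * 9 + 5,
  0 * 9 + 4, 0 * 9 + 3, 2 * 9 + 8, 3 * 9 + 8, 1 * 9 + 8, 3 * 9 + 4, 0 * 9 + 6,
  4 * 9 + 6, 5 * 9 + 6, 0 * 9 + 2]

/-- The plane in which an edge is drawn. -/
def C (u v : Fin 9) : Fin 2 :=
  if (9 * (u : ℕ) + v) ∈ E2 ∨ (9 * (v : ℕ) + u) ∈ E2 then 1 else 0

/-- Orientation. -/
def O (i : Fin 2) (u v w : Fin 9) : ℤ :=
  ((P i v).1 - (P i u).1) * ((P i w).2 - (P i u).2) -
    ((P i v).2 - (P i u).2) * ((P i w).1 - (P i u).1)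

/-- The points `w`, `z` are weakly on one side of the line `uv` and not both on it. -/
def side (i : Fin 2) (u v w z : Fin 9) : Prop :=
  (0 ≤ O i u v w ∧ 0 ≤ O i u v z ∧ 0 < O i u v w + O i u v z) ∨
    (O i u v w ≤ 0 ∧ O i u v z ≤ 0 ∧ O i u v w + O i u v z < 0)

instance (i : Fin 2) (u v w z : Fin 9) : Decidable (side i u v w z) := by
  unfold side; infer_instance

theorem check_side : ∀ i : Fin 2, ∀ u v w z : Fin 9, u ≠ v → w ≠ z → C u v = i → C w z = i →
    ¬ (u = w ∧ v = z) → ¬ (u = z ∧ v = w) →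
    side i u v w z ∨ side i w z u v ∨ (i = 1 ∧ (u, v, w, z) ∈ F8 3 4 0 6) := by
  decide +kernel

theorem check_vertex : ∀ i : Fin 2, ∀ u v w : Fin 9, u ≠ v → C u v = i → w ≠ u → w ≠ v →
    O i u v w ≠ 0 := by
  decide +kernel

theorem check_inj : ∀ i : Fin 2, ∀ u v : Fin 9, u ≠ v → P i u ≠ P i v := by
  decide +kernel

theorem C_symm : ∀ u v : Fin 9, C u v = C v u := by decide +kernel

/-- The positions of the vertices. -/
noncomputable def pp (i : Fin 2) (v : Fin 9) : ℂ := ⟨(P i v).1, (P i v).2⟩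

/-- The segments. -/
noncomputable def gg (i : Fin 2) (u v : Fin 9) (t : ℝ) : ℂ :=
  ((1 - t : ℝ) : ℂ) * pp i u + ((t : ℝ) : ℂ) * pp i v

theorem gg_re (i : Fin 2) (u v : Fin 9) (t : ℝ) :
    (gg i u v t).re = (1 - t) * (P i u).1 + t * (P i v).1 := by
  simp [gg, pp]

theorem gg_im (i : Fin 2) (u v : Fin 9) (t : ℝ) :
    (gg i u v t).im = (1 - t) * (P i u).2 + t * (P i v).2 := by
  simp [gg, pp]

/-- The affine function vanishing on the line `uv`. -/
noncomputable def ff (i : Fin 2) (u v : Fin 9) (q : ℂ) : ℝ :=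
  ((P i v).1 - (P i u).1 : ℝ) * (q.im - (P i u).2) -
    ((P i v).2 - (P i u).2 : ℝ) * (q.re - (P i u).1)

theorem ff_self (i : Fin 2) (u v : Fin 9) (t : ℝ) : ff i u v (gg i u v t) = 0 := by
  rw [ff, gg_re, gg_im]; ring

theorem ff_gg (i : Fin 2) (u v w z : Fin 9) (t : ℝ) :
    ff i u v (gg i w z t) = (1 - t) * (O i u v w : ℝ) + t * (O i u v z : ℝ) := by
  rw [ff, gg_re, gg_im, O, O]; push_cast; ring

theorem ff_pp (i : Fin 2) (u v w : Fin 9) : ff i u v (pp i w) = (O i u v w : ℝ) := by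
  rw [ff, O, pp]; push_cast; ring

theorem side_ne {i : Fin 2} {u v w z : Fin 9} (h : side i u v w z) {s t : ℝ} (ht : 0 < t)
    (ht1 : t < 1) : gg i u v s ≠ gg i w z t := by
  intro he
  have h1 := ff_self i u v s
  rw [he, ff_gg] at h1
  have h1t : 0 < 1 - t := by linarith
  rcases h with ⟨ha, hb, hab⟩ | ⟨ha, hb, hab⟩
  · have ha' : (0 : ℝ) ≤ O i u v w := by exact_mod_cast ha
    have hb' : (0 : ℝ) ≤ O i u v z := by exact_mod_cast hb
    have hab' : (0 : ℝ) < O i u v w + O i u v z := by exact_mod_cast hab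
    have p1 := mul_nonneg h1t.le ha'
    have p2 := mul_nonneg ht.le hb'
    have q1 : (1 - t) * (O i u v w : ℝ) = 0 := by linarith
    have q2 : t * (O i u v z : ℝ) = 0 := by linarith
    have r1 : (O i u v w : ℝ) = 0 := (mul_eq_zero.mp q1).resolve_left h1t.ne'
    have r2 : (O i u v z : ℝ) = 0 := (mul_eq_zero.mp q2).resolve_left ht.ne'
    linarith
  · have ha' : (O i u v w : ℝ) ≤ 0 := by exact_mod_cast ha
    have hb' : (O i u v z : ℝ) ≤ 0 := by exact_mod_cast hb
    have hab' : (O i u v w + O i u v z : ℝ) < 0 := by exact_mod_cast hab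
    have p1 := mul_nonneg h1t.le (neg_nonneg.mpr ha')
    have p2 := mul_nonneg ht.le (neg_nonneg.mpr hb')
    have q1 : (1 - t) * (O i u v w : ℝ) = 0 := by linarith
    have q2 : t * (O i u v z : ℝ) = 0 := by linarith
    have r1 : (O i u v w : ℝ) = 0 := (mul_eq_zero.mp q1).resolve_left h1t.ne'
    have r2 : (O i u v z : ℝ) = 0 := (mul_eq_zero.mp q2).resolve_left ht.ne'
    linarith

theorem pp_inj (i : Fin 2) : Function.Injective (pp i) := by
  intro u v h
  by_contra hne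
  apply check_inj i u v hne
  have h1 := congrArg Complex.re h
  have h2 := congrArg Complex.im h
  simp only [pp] at h1 h2
  exact Prod.ext (by exact_mod_cast h1) (by exact_mod_cast h2)

theorem gg_sub (i : Fin 2) (u v : Fin 9) (s t : ℝ) :
    gg i u v s - gg i u v t = ((s - t : ℝ) : ℂ) * (pp i v - pp i u) := by
  simp only [gg]; push_cast; ring

theorem gg_injective (i : Fin 2) (u v : Fin 9) (huv : u ≠ v) : Function.Injective (gg i u v) := by
  intro s t h
  have h1 := gg_sub i u v s t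
  rw [h, sub_self] at h1
  rcases mul_eq_zero.mp h1.symm with h2 | h2
  · have : s - t = 0 := by exact_mod_cast h2
    linarith
  · exact absurd (pp_inj i (sub_eq_zero.mp h2)) huv.symm

theorem gg_zero (i : Fin 2) (u v : Fin 9) : gg i u v 0 = pp i u := by simp [gg]

theorem gg_one (i : Fin 2) (u v : Fin 9) : gg i u v 1 = pp i v := by simp [gg]

theorem gg_rev (i : Fin 2) (u v : Fin 9) (t : ℝ) : gg i v u t = gg i u v (1 - t) := by
  simp only [gg]; push_cast; ring

theorem gg_continuous (i : Fin 2) (u v : Fin 9) : Continuous (gg i u v) := by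
  unfold gg; fun_prop

theorem gg_vertex (i : Fin 2) (u v : Fin 9) (huv : u ≠ v) (hC : C u v = i) (t : ℝ) (h0 : 0 < t)
    (h1 : t < 1) (w : Fin 9) : gg i u v t ≠ pp i w := by
  by_cases hu : w = u
  · subst hu
    rw [← gg_zero i w v]
    exact fun h => h0.ne' (gg_injective i w v huv h)
  · by_cases hv : w = v
    · subst hv
      rw [← gg_one i u w]
      exact fun h => h1.ne (gg_injective i u w huv h)
    · intro h
      have h2 := ff_self i u v t
      rw [h, ff_pp] at h2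
      exact check_vertex i u v w huv hC hu hv (by exact_mod_cast h2)

/-- The crossing point. -/
noncomputable def z0 : ℂ := ⟨63 / 16, 9 / 4⟩

theorem eq_z0 (q : ℂ) (h1 : ff 1 3 4 q = 0) (h2 : ff 1 0 6 q = 0) : q = z0 := by
  simp only [ff, P] at h1 h2
  norm_num at h1 h2
  apply Complex.ext
  · simp only [z0]; linarith
  · simp only [z0]; linarith

theorem ff_rev (i : Fin 2) (u v : Fin 9) (q : ℂ) : ff i v u q = - ff i u v q := by
  rw [ff, ff]; ring

theorem special (u v w z : Fin 9) (h : (u, v, w, z) ∈ F8 3 4 0 6) (q : ℂ)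
    (h1 : ff 1 u v q = 0) (h2 : ff 1 w z q = 0) : q = z0 := by
  simp only [F8, Finset.mem_insert, Finset.mem_singleton, Prod.mk.injEq] at h
  rcases h with ⟨rfl, rfl, rfl, rfl⟩ | ⟨rfl, rfl, rfl, rfl⟩ | ⟨rfl, rfl, rfl, rfl⟩ |
    ⟨rfl, rfl, rfl, rfl⟩ | ⟨rfl, rfl, rfl, rfl⟩ | ⟨rfl, rfl, rfl, rfl⟩ | ⟨rfl, rfl, rfl, rfl⟩ |
    ⟨rfl, rfl, rfl, rfl⟩
  · exact eq_z0 q h1 h2
  · exact eq_z0 q (by rw [ff_rev, h1, neg_zero]) h2
  · exact eq_z0 q h1 (by rw [ff_rev, h2, neg_zero])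
  · exact eq_z0 q (by rw [ff_rev, h1, neg_zero]) (by rw [ff_rev, h2, neg_zero])
  · exact eq_z0 q h2 h1
  · exact eq_z0 q (by rw [ff_rev, h2, neg_zero]) h1
  · exact eq_z0 q h2 (by rw [ff_rev, h1, neg_zero])
  · exact eq_z0 q (by rw [ff_rev, h2, neg_zero]) (by rw [ff_rev, h1, neg_zero])

/-- The eight tuples. -/
noncomputable def big : Finset (Fin 2 × Fin 9 × Fin 9 × Fin 9 × Fin 9 × ℂ) := by
  classical
  exact (F8 3 4 0 6).image fun a => ((1 : Fin 2), a.1, a.2.1, a.2.2.1, a.2.2.2, z0)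

theorem big_card : big.card ≤ 8 := by
  classical
  refine Finset.card_image_le.trans ?_
  exact (F8_card 3 4 0 6 (by decide) (by decide) (by decide) (by decide)).le

theorem XS_sub : XS C gg ⊆ (big : Set _) := by
  classical
  rintro ⟨i, u, v, w, z, q⟩ ⟨h1, h2, h3, h4, h5, h6, ⟨s, s0, s1, hs⟩, ⟨t, t0, t1, ht⟩⟩
  simp only at h1 h2 h3 h4 h5 h6 hs ht
  rcases check_side i u v w z h1 h2 h3 h4 h5 h6 with h | h | ⟨rfl, h⟩
  · exact absurd (hs.trans ht.symm) (side_ne h t0 t1)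
  · exact absurd (ht.trans hs.symm) (side_ne h s0 s1)
  · have hq : q = z0 := special u v w z h q (by rw [← hs]; exact ff_self _ _ _ _)
      (by rw [← ht]; exact ff_self _ _ _ _)
    rw [Finset.mem_coe, big, Finset.mem_image]
    exact ⟨(u, v, w, z), h, by rw [hq]⟩

theorem XS_finite : (XS C gg).Finite := Set.Finite.subset (Finset.finite_toSet _) XS_sub

theorem XS_ncard : (XS C gg).ncard ≤ 8 := by
  refine (Set.ncard_le_ncard XS_sub (Finset.finite_toSet _)).trans ?_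
  rw [Set.ncard_coe_finset]
  exact big_card

end Pool.Agent.TH510.K9
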