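import Pool.Agent.TH510.K9.Perm
import Pool.Agent.TH510.K9.Data
import Pool.Agent.Helper770.VanKampen

set_option autoImplicit false
set_option maxRecDepth 100000

/-!
# No self-complementary graph on nine vertices satisfies the van Kampen relations
-/

namespace Pool.Agent.TH510.K9

open Pool.Agent.Helper770.VanKampen

/-- Number of the label of the edge `ab` and the vertex `c`. -/
def lab (a b c : ℕ) : ℕ := (a * 9 + b) * 9 + c

/-- The interleaving indicator. -/
def betaB (a b c d : ℕ) : Bool :=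
  ((decide (a < c) && decide (c < b)) ^^ (decide (a < d) && decide (d < b)))

def qA (x : ℕ) : ℕ := x >>> 12
def qB (x : ℕ) : ℕ := (x >>> 8) &&& 15
def qC (x : ℕ) : ℕ := (x >>> 4) &&& 15
def qD (x : ℕ) : ℕ := x &&& 15

/-- The four labels of a pair of disjoint edges. -/
def four (a b c d : ℕ) : ℕ :=
  (2 ^ lab a b c ^^^ 2 ^ lab a b d) ^^^ (2 ^ lab c d a ^^^ 2 ^ lab c d b)

/-- The code `x` is a pair of disjoint edges. -/
def okq (x : ℕ) : Bool :=
  decide (qA x < qB x ∧ qB x < 9 ∧ qC x < qD x ∧ qD x < 9 ∧ qA x ≠ qC x ∧ qA x ≠ qD x ∧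
    qB x ≠ qC x ∧ qB x ≠ qD x)

def maskOf : List ℕ → ℕ
  | [] => 0
  | x :: L => four (qA x) (qB x) (qC x) (qD x) ^^^ maskOf L

def parOf : List ℕ → Bool
  | [] => false
  | x :: L => betaB (qA x) (qB x) (qC x) (qD x) ^^ parOf L

/-- The certificate is correct: its labels cancel and the parity is odd; its pairs of edges are
edges of the bit mask `e`. -/
def certOK (c : ℕ × List ℕ) : Bool :=
  c.2.all (fun x => okq x && (c.1.testBit (9 * qA x + qB x) && c.1.testBit (9 * qC x + qD x))) &&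
    (Nat.beq (maskOf c.2) 0 && parOf c.2)

theorem certs_ok : certs.all certOK = true := by decide +kernel

/-- For the permutation `(0 1 2 3 4 5 6 7)`: the entry of the pair `i < j` at `9 i + j` is
`16 n + k`, where `n` steps lead from the representative of the `k`-th orbit to the pair. -/
def tab8 : List ℕ := [0, 0, 1, 2, 3, 82, 97, 112, 4, 0, 0, 16, 17, 18, 19, 98, 113, 20, 0, 0, 0,
  32, 33, 34, 35, 114, 36, 0, 0, 0, 0, 48, 49, 50, 51, 52, 0, 0, 0, 0, 0, 64, 65, 66, 68, 0, 0, 0,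
  0, 0, 0, 80, 81, 84, 0, 0, 0, 0, 0, 0, 0, 96, 100, 0, 0, 0, 0, 0, 0, 0, 0, 116, 0, 0, 0, 0, 0, 0,
  0, 0, 0]

def reps8 : List (Fin 9 × Fin 9) := [(0, 1), (0, 2), (0, 3), (0, 4), (0, 8)]

/-- For the permutation `(0 1 2 3)(4 5 6 7)`. -/
def tab44 : List ℕ := [0, 0, 1, 48, 2, 3, 4, 5, 6, 0, 0, 16, 17, 21, 18, 19, 20, 22, 0, 0, 0, 32,
  36, 37, 34, 35, 38, 0, 0, 0, 0, 51, 52, 53, 50, 54, 0, 0, 0, 0, 0, 7, 8, 55, 9, 0, 0, 0, 0, 0, 0,
  23, 24, 25, 0, 0, 0, 0, 0, 0, 0, 39, 41, 0, 0, 0, 0, 0, 0, 0, 0, 57, 0, 0, 0, 0, 0, 0, 0, 0, 0]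

def reps44 : List (Fin 9 × Fin 9) :=
  [(0, 1), (0, 2), (0, 4), (0, 5), (0, 6), (0, 7), (0, 8), (4, 5), (4, 6), (4, 8)]

/-- The adjacency at the pair `9 i + j` for the values `X` at the representatives. -/
def val (tab : List ℕ) (X : ℕ → Bool) (n : ℕ) : Bool :=
  X (tab.getD n 0 % 16) ^^ Nat.beq (tab.getD n 0 / 16 % 2) 1

/-- The number with the given bits. -/
def mk (f : ℕ → Bool) : ℕ → ℕ
  | 0 => 0
  | n + 1 => (bif f n then 2 ^ n else 0) ||| mk f n

theorem testBit_mk (f : ℕ → Bool) (n i : ℕ) (h : (mk f n).testBit i = true) : f i = true := by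
  induction n with
  | zero => simp [mk] at h
  | succ n ih =>
    rw [mk, Nat.testBit_or, Bool.or_eq_true] at h
    rcases h with h | h
    · cases hf : f n
      · simp [hf] at h
      · rw [hf, cond_true, Nat.testBit_two_pow] at h
        have : n = i := by simpa using h
        rw [← this]; exact hf
    · exact ih h

def X5 (x0 x1 x2 x3 x4 : Bool) : ℕ → Bool := fun k => [x0, x1, x2, x3, x4].getD k false

def X10 (x0 x1 x2 x3 x4 x5 x6 x7 x8 x9 : Bool) : ℕ → Bool :=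
  fun k => [x0, x1, x2, x3, x4, x5, x6, x7, x8, x9].getD k false

/-- Some certificate lies in the graph. -/
def covered (M : ℕ) : Bool := certs.any fun c => Nat.beq (M &&& c.1) c.1

theorem enum8 : ∀ x0 x1 x2 x3 x4 : Bool,
    covered (mk (val tab8 (X5 x0 x1 x2 x3 x4)) 81) = true := by decide +kernel

theorem enum44 : ∀ x0 x1 x2 x3 x4 x5 x6 x7 x8 x9 : Bool,
    covered (mk (val tab44 (X10 x0 x1 x2 x3 x4 x5 x6 x7 x8 x9)) 81) = true := by decide +kernel

end Pool.Agent.TH510.K9
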