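import Mathlib

set_option autoImplicit false

/-!
# Complementing permutations of nine points

Every permutation of nine points that complements a graph has an odd power which is conjugate to
one of two explicit permutations, of cycle type `8 + 1` or `4 + 4 + 1`.
-/

namespace Pool.Agent.TH510.K9

open Equiv Equiv.Perm

/-- The permutation `(0 1 2 3 4 5 6 7)`. -/
def t8 : Perm (Fin 9) := List.formPerm [0, 1, 2, 3, 4, 5, 6, 7]

/-- The permutation `(0 1 2 3)(4 5 6 7)`. -/
def t44 : Perm (Fin 9) := List.formPerm [0, 1, 2, 3] * List.formPerm [4, 5, 6, 7]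

theorem t8_type : t8.cycleType = {8} := by
  decide +kernel

theorem t44_type : t44.cycleType = {4, 4} := by
  decide +kernel

/-- `σ` complements the relation `adj`. -/
def Compl (adj : Fin 9 → Fin 9 → Prop) (σ : Perm (Fin 9)) : Prop :=
  ∀ u v, u ≠ v → (adj (σ u) (σ v) ↔ ¬ adj u v)

theorem Compl.odd_pow {adj : Fin 9 → Fin 9 → Prop} {σ : Perm (Fin 9)} (h : Compl adj σ)
    (j : ℕ) : Compl adj (σ ^ (2 * j + 1)) := by
  induction j with
  | zero => simpa using h
  | succ j ih =>
    intro u v huv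
    have e : σ ^ (2 * (j + 1) + 1) = σ * (σ * σ ^ (2 * j + 1)) := by
      rw [← pow_succ', ← pow_succ']; congr 1
    rw [e]
    simp only [Perm.mul_apply]
    have h1 : (σ ^ (2 * j + 1)) u ≠ (σ ^ (2 * j + 1)) v := fun hh => huv ((σ ^ (2 * j + 1)).injective hh)
    have h2 : σ ((σ ^ (2 * j + 1)) u) ≠ σ ((σ ^ (2 * j + 1)) v) := fun hh => h1 (σ.injective hh)
    rw [h _ _ h2, h _ _ h1, ih u v huv]
    tauto

theorem multiset_aux (M : Multiset ℕ) (hM : ∀ x ∈ M, x = 4 ∨ x = 8) (hs : M.sum = 8) :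
    M = {8} ∨ M = {4, 4} := by
  have hz : ∀ N : Multiset ℕ, (∀ x ∈ N, x = 4 ∨ x = 8) → N.sum = 0 → N = 0 := by
    intro N hN h0
    by_contra hne
    obtain ⟨a, ha⟩ := Multiset.exists_mem_of_ne_zero hne
    have := Multiset.single_le_sum (fun x _ => Nat.zero_le x) a ha
    rcases hN a ha with rfl | rfl <;> omega
  have hne : M ≠ 0 := by rintro rfl; simp at hs
  obtain ⟨a, ha⟩ := Multiset.exists_mem_of_ne_zero hne
  obtain ⟨N, rfl⟩ := Multiset.exists_cons_of_mem ha
  rw [Multiset.sum_cons] at hs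
  rcases hM a ha with rfl | rfl
  · right
    have hne2 : N ≠ 0 := by rintro rfl; simp at hs
    obtain ⟨b, hb⟩ := Multiset.exists_mem_of_ne_zero hne2
    obtain ⟨N', rfl⟩ := Multiset.exists_cons_of_mem hb
    rw [Multiset.sum_cons] at hs
    rcases hM b (Multiset.mem_cons_of_mem hb) with rfl | rfl
    · rw [hz N' (fun x hx => hM x (Multiset.mem_cons_of_mem (Multiset.mem_cons_of_mem hx)))
        (by omega)]
      rfl
    · omega
  · left
    rw [hz N (fun x hx => hM x (Multiset.mem_cons_of_mem hx)) (by omega)]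
    rfl

theorem type_of_compl {adj : Fin 9 → Fin 9 → Prop} (hsym : ∀ u v, adj u v → adj v u)
    {σ : Perm (Fin 9)} (h : Compl adj σ) (a : ℕ) (ha : orderOf σ = 2 ^ a) :
    σ.cycleType = {8} ∨ σ.cycleType = {4, 4} := by
  have hsymm : ∀ u v, adj u v ↔ adj v u := fun u v => ⟨hsym u v, hsym v u⟩
  have hsupp : σ.support.card ≤ 9 := by
    have := Finset.card_le_univ σ.support; simpa using this
  -- no two fixed points
  have hfix : 8 ≤ σ.support.card := by
    by_contra hlt
    have h1 : 1 < (σ.supportᶜ).card := by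
      rw [Finset.card_compl, Fintype.card_fin]; omega
    obtain ⟨u, hu, v, hv, huv⟩ := Finset.one_lt_card.mp h1
    have e1 : σ u = u := by simpa using hu
    have e2 : σ v = v := by simpa using hv
    have := h u v huv
    rw [e1, e2] at this
    tauto
  have hel : ∀ x ∈ σ.cycleType, x = 4 ∨ x = 8 := by
    intro x hx
    have h1 := two_le_of_mem_cycleType hx
    have h2 := (le_card_support_of_mem_cycleType hx).trans hsupp
    have h3 : x ∣ 2 ^ a := ha ▸ dvd_of_mem_cycleType hx
    obtain ⟨j, -, rfl⟩ := (Nat.dvd_prime_pow Nat.prime_two).mp h3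
    have hj : j < 4 := by
      by_contra hj
      have : 2 ^ 4 ≤ 2 ^ j := Nat.pow_le_pow_right (by norm_num) (by omega)
      omega
    have hj1 : j ≠ 1 := by
      rintro rfl
      rw [mem_cycleType_iff] at hx
      obtain ⟨c, τ, hcτ, hd, hc, hcard⟩ := hx
      have hsw : c.IsSwap := card_support_eq_two.mp (by simpa using hcard)
      obtain ⟨x, y, hxy, rfl⟩ := hsw
      have hx : x ∈ (swap x y).support := by simp [mem_support, hxy.symm]
      have hy : y ∈ (swap x y).support := by simp [mem_support, hxy]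
      have tx : τ x = x := by
        rcases hd x with h' | h'
        · exact absurd h' (mem_support.mp hx)
        · exact h'
      have ty : τ y = y := by
        rcases hd y with h' | h'
        · exact absurd h' (mem_support.mp hy)
        · exact h'
      have e1 : σ x = y := by rw [hcτ, Perm.mul_apply, tx, swap_apply_left]
      have e2 : σ y = x := by rw [hcτ, Perm.mul_apply, ty, swap_apply_right]
      have := h x y hxy
      rw [e1, e2, hsymm y x] at this
      tauto
    interval_cases j <;> simp_all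
  have hsum := σ.sum_cycleType
  have heven : 4 ∣ σ.cycleType.sum := by
    apply Multiset.dvd_sum
    intro x hx
    rcases hel x hx with rfl | rfl <;> norm_num
  exact multiset_aux _ hel (by omega)

/-- The reduction to two permutations. -/
theorem reduce {adj : Fin 9 → Fin 9 → Prop} (hsym : ∀ u v, adj u v → adj v u)
    {σ : Perm (Fin 9)} (h : Compl adj σ) :
    ∃ π τ : Perm (Fin 9), (τ = t8 ∨ τ = t44) ∧
      ∀ u v, u ≠ v → (adj (π (τ u)) (π (τ v)) ↔ ¬ adj (π u) (π v)) := by
  have hpos : orderOf σ ≠ 0 := (orderOf_pos σ).ne'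
  obtain ⟨k, m, hm, hk⟩ := Nat.exists_eq_two_pow_mul_odd hpos
  have hm0 : m ≠ 0 := by rintro rfl; simp at hm
  have ho : orderOf (σ ^ m) = 2 ^ k := by
    rw [orderOf_pow_of_dvd hm0 ⟨2 ^ k, by rw [hk, mul_comm]⟩, hk,
      Nat.mul_div_cancel _ (Nat.pos_of_ne_zero hm0)]
  obtain ⟨j, rfl⟩ := hm
  have hc := h.odd_pow j
  have key : ∀ τ : Perm (Fin 9), (σ ^ (2 * j + 1)).cycleType = τ.cycleType →
      ∃ π : Perm (Fin 9), ∀ u v, u ≠ v → (adj (π (τ u)) (π (τ v)) ↔ ¬ adj (π u) (π v)) := by
    intro τ hτ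
    obtain ⟨c, hcc⟩ := isConj_iff.mp (isConj_iff_cycleType_eq.mpr hτ)
    refine ⟨c⁻¹, fun u v huv => ?_⟩
    have e : ∀ w, c⁻¹ (τ w) = (σ ^ (2 * j + 1)) (c⁻¹ w) := by
      intro w
      rw [← hcc]
      simp [Perm.mul_apply]
    rw [e, e]
    exact hc _ _ (fun hh => huv (c⁻¹.injective hh))
  rcases type_of_compl hsym hc k ho with h8 | h44
  · obtain ⟨π, hπ⟩ := key t8 (h8.trans t8_type.symm)
    exact ⟨π, t8, Or.inl rfl, hπ⟩
  · obtain ⟨π, hπ⟩ := key t44 (h44.trans t44_type.symm)
    exact ⟨π, t44, Or.inr rfl, hπ⟩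

end Pool.Agent.TH510.K9
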