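import Pool.Agent.TH510.K9.Sound

set_option autoImplicit false

/-!
# A self-complementary graph on nine vertices has no crossing-free drawing, and a biplanar drawing
of `K_9` with isomorphic halves has more than one crossing
-/

namespace Pool.Agent.TH510.K9

open Pool.Agent.Helper770.VanKampen Set

/-- Clamping to the unit interval. -/
noncomputable def clamp (t : ℝ) : ℝ := max 0 (min 1 t)

theorem clamp_mem (t : ℝ) : clamp t ∈ Icc (0 : ℝ) 1 :=
  ⟨le_max_left _ _, max_le zero_le_one (min_le_left _ _)⟩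

theorem continuous_clamp : Continuous clamp := by unfold clamp; fun_prop

theorem clamp_cases (t : ℝ) : clamp t = 0 ∨ clamp t = 1 ∨ (0 < clamp t ∧ clamp t < 1) := by
  have h := clamp_mem t
  rcases h.1.eq_or_lt with h0 | h0
  · exact Or.inl h0.symm
  · rcases h.2.eq_or_lt with h1 | h1
    · exact Or.inr (Or.inl h1)
    · exact Or.inr (Or.inr ⟨h0, h1⟩)

theorem clamp_zero : clamp 0 = 0 := by simp [clamp]

theorem clamp_one : clamp 1 = 1 := by simp [clamp]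

theorem plane_contra (adj : Fin 9 → Fin 9 → Prop) (hsym : ∀ u v, adj u v → adj v u)
    (σ : Equiv.Perm (Fin 9)) (hσ : Compl adj σ) (p : Fin 9 → ℂ) (hp : Function.Injective p)
    (γ : Fin 9 → Fin 9 → ℝ → ℂ)
    (hγ : ∀ u v, adj u v → ContinuousOn (γ u v) (Icc (0 : ℝ) 1) ∧ γ u v 0 = p u ∧ γ u v 1 = p v ∧
      ∀ t : ℝ, 0 < t → t < 1 → ∀ w, γ u v t ≠ p w)
    (hX : ∀ a b c d, adj a b → adj c d → a ≠ c → a ≠ d → b ≠ c → b ≠ d →
      ∀ s t : ℝ, 0 < s → s < 1 → 0 < t → t < 1 → γ a b s ≠ γ c d t) : False := by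
  classical
  obtain ⟨π, τ, hτ, hc⟩ := reduce hsym hσ
  have hinj : Function.Injective (fun v => p (π v)) := hp.comp π.injective
  have hv : ∀ a b c : Fin 9, a < b → adj (π a) (π b) → c ≠ a → c ≠ b → ∀ t : ℝ,
      γ (π a) (π b) (clamp t) ≠ p (π c) := by
    intro a b c _ hE hca hcb t
    obtain ⟨-, g0, g1, g2⟩ := hγ _ _ hE
    rcases clamp_cases t with h | h | h
    · rw [h, g0]; exact fun hh => hca (hinj hh).symm
    · rw [h, g1]; exact fun hh => hcb (hinj hh).symm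
    · exact g2 _ h.1 h.2 _
  obtain ⟨m, hm⟩ := exists_labels (fun v => p (π v)) hinj (fun a b => adj (π a) (π b))
    (fun a b t => γ (π a) (π b) (clamp t))
    (fun a b _ hE => (hγ _ _ hE).1.comp_continuous continuous_clamp clamp_mem)
    (fun a b _ hE => by simp only [clamp_zero]; exact (hγ _ _ hE).2.1)
    (fun a b _ hE => by simp only [clamp_one]; exact (hγ _ _ hE).2.2.1)
    hv
  refine no_labels (fun u v => decide (adj (π u) (π v))) ?_ τ hτ ?_ m ?_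
  · intro u v
    exact decide_eq_decide.mpr ⟨hsym _ _, hsym _ _⟩
  · intro u v huv
    have := hc u v huv
    by_cases h : adj (π u) (π v)
    · have h' : ¬ adj (π (τ u)) (π (τ v)) := fun hh => (this.mp hh) h
      simp [h, h']
    · have h' : adj (π (τ u)) (π (τ v)) := this.mpr h
      simp [h, h']
  · intro a b c d hab hcd hB1 hB2 hac had hbc hbd
    have h1 : adj (π a) (π b) := of_decide_eq_true hB1
    have h2 : adj (π c) (π d) := of_decide_eq_true hB2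
    refine hm a b c d hab hcd h1 h2 hac had hbc hbd ?_
    intro s t
    obtain ⟨-, g0, g1, g2⟩ := hγ _ _ h1
    rcases clamp_cases s with h | h | h
    · simp only [h, g0]
      exact (hv c d a hcd h2 hac had t).symm
    · simp only [h, g1]
      exact (hv c d b hcd h2 hbc hbd t).symm
    · obtain ⟨-, g0', g1', -⟩ := hγ _ _ h2
      rcases clamp_cases t with h' | h' | h'
      · simp only [h', g0']; exact g2 _ h.1 h.2 _
      · simp only [h', g1']; exact g2 _ h.1 h.2 _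
      · exact hX _ _ _ _ h1 h2 (fun hh => hac (π.injective hh)) (fun hh => had (π.injective hh))
          (fun hh => hbc (π.injective hh)) (fun hh => hbd (π.injective hh)) _ _ h.1 h.2 h'.1 h'.2

/-- The set counted in the statement, for the complete graph on nine vertices. -/
def XS (c : Fin 9 → Fin 9 → Fin 2) (γ : Fin 2 → Fin 9 → Fin 9 → ℝ → ℂ) :
    Set (Fin 2 × Fin 9 × Fin 9 × Fin 9 × Fin 9 × ℂ) :=
  {x | (⊤ : SimpleGraph (Fin 9)).Adj x.2.1 x.2.2.1 ∧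
    (⊤ : SimpleGraph (Fin 9)).Adj x.2.2.2.1 x.2.2.2.2.1 ∧
    c x.2.1 x.2.2.1 = x.1 ∧ c x.2.2.2.1 x.2.2.2.2.1 = x.1 ∧
    ¬ (x.2.1 = x.2.2.2.1 ∧ x.2.2.1 = x.2.2.2.2.1) ∧
    ¬ (x.2.1 = x.2.2.2.2.1 ∧ x.2.2.1 = x.2.2.2.1) ∧
    (∃ t : ℝ, 0 < t ∧ t < 1 ∧ γ x.1 x.2.1 x.2.2.1 t = x.2.2.2.2.2) ∧
    (∃ t : ℝ, 0 < t ∧ t < 1 ∧ γ x.1 x.2.2.2.1 x.2.2.2.2.1 t = x.2.2.2.2.2)}

/-- The eight ordered versions of a pair of edges. -/
def F8 (u v w z : Fin 9) : Finset (Fin 9 × Fin 9 × Fin 9 × Fin 9) :=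
  {(u, v, w, z), (v, u, w, z), (u, v, z, w), (v, u, z, w),
    (w, z, u, v), (w, z, v, u), (z, w, u, v), (z, w, v, u)}

theorem F8_card : ∀ u v w z : Fin 9, u ≠ v → w ≠ z → ¬ (u = w ∧ v = z) → ¬ (u = z ∧ v = w) →
    (F8 u v w z).card = 8 := by
  decide +kernel

theorem XS_swap {c : Fin 9 → Fin 9 → Fin 2} {γ : Fin 2 → Fin 9 → Fin 9 → ℝ → ℂ} {i : Fin 2}
    {u v w z : Fin 9} {q : ℂ} (h : (i, u, v, w, z, q) ∈ XS c γ) :
    (i, w, z, u, v, q) ∈ XS c γ := by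
  obtain ⟨h1, h2, h3, h4, h5, h6, h7, h8⟩ := h
  exact ⟨h2, h1, h4, h3, fun hh => h5 ⟨hh.1.symm, hh.2.symm⟩, fun hh => h6 ⟨hh.2.symm, hh.1.symm⟩,
    h8, h7⟩

theorem XS_rev {c : Fin 9 → Fin 9 → Fin 2} {γ : Fin 2 → Fin 9 → Fin 9 → ℝ → ℂ} {i : Fin 2}
    (hcs : ∀ u v : Fin 9, (⊤ : SimpleGraph (Fin 9)).Adj u v → c u v = c v u)
    (hrev : ∀ u v : Fin 9, (⊤ : SimpleGraph (Fin 9)).Adj u v → c u v = i →
      ∀ t : ℝ, 0 ≤ t → t ≤ 1 → γ i v u t = γ i u v (1 - t))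
    {u v w z : Fin 9} {q : ℂ} (h : (i, u, v, w, z, q) ∈ XS c γ) :
    (i, v, u, w, z, q) ∈ XS c γ := by
  obtain ⟨h1, h2, h3, h4, h5, h6, ⟨t, t0, t1, ht⟩, h8⟩ := h
  refine ⟨h1.symm, h2, (hcs _ _ h1).symm.trans h3, h4, fun hh => h6 ⟨hh.2, hh.1⟩,
    fun hh => h5 ⟨hh.2, hh.1⟩, ⟨1 - t, by linarith, by linarith, ?_⟩, h8⟩
  have := hrev u v h1 h3 (1 - t) (by linarith) (by linarith)
  simp only at ht ⊢
  rw [this, ← ht]
  congr 1
  ring

theorem nine_le {c : Fin 9 → Fin 9 → Fin 2} {γ : Fin 2 → Fin 9 → Fin 9 → ℝ → ℂ}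
    (hcs : ∀ u v : Fin 9, (⊤ : SimpleGraph (Fin 9)).Adj u v → c u v = c v u)
    (hrev : ∀ i : Fin 2, ∀ u v : Fin 9, (⊤ : SimpleGraph (Fin 9)).Adj u v → c u v = i →
      ∀ t : ℝ, 0 ≤ t → t ≤ 1 → γ i v u t = γ i u v (1 - t))
    (hfin : (XS c γ).Finite) (x y : Fin 2 × Fin 9 × Fin 9 × Fin 9 × Fin 9 × ℂ)
    (hx : x ∈ XS c γ) (hy : y ∈ XS c γ) (hxy : x.1 ≠ y.1) : 9 ≤ (XS c γ).ncard := by
  classical
  obtain ⟨i, u, v, w, z, q⟩ := x
  have r := fun {u v w z : Fin 9} {q : ℂ} (h : (i, u, v, w, z, q) ∈ XS c γ) =>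
    XS_rev hcs (hrev i) h
  have s := fun {u v w z : Fin 9} {q : ℂ} (h : (i, u, v, w, z, q) ∈ XS c γ) => XS_swap h
  let f : Fin 9 × Fin 9 × Fin 9 × Fin 9 → Fin 2 × Fin 9 × Fin 9 × Fin 9 × Fin 9 × ℂ :=
    fun a => (i, a.1, a.2.1, a.2.2.1, a.2.2.2, q)
  have hf : Function.Injective f := by
    rintro ⟨a, b, c, d⟩ ⟨a', b', c', d'⟩ h
    simp only [f, Prod.mk.injEq, true_and, and_true] at h
    obtain ⟨rfl, rfl, rfl, rfl⟩ := h
    rfl
  have hcard : ((F8 u v w z).image f).card = 8 := by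
    rw [Finset.card_image_of_injective _ hf]
    exact F8_card u v w z hx.1 hx.2.1 hx.2.2.2.2.1 hx.2.2.2.2.2.1
  have hmem : ∀ a ∈ (F8 u v w z).image f, a ∈ XS c γ := by
    intro a ha
    obtain ⟨b, hb, rfl⟩ := Finset.mem_image.mp ha
    simp only [F8, Finset.mem_insert, Finset.mem_singleton] at hb
    rcases hb with rfl | rfl | rfl | rfl | rfl | rfl | rfl | rfl
    · exact hx
    · exact r hx
    · exact s (r (s hx))
    · exact r (s (r (s hx)))
    · exact s hx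
    · exact s (r hx)
    · exact r (s hx)
    · exact r (s (r hx))
  have hy' : y ∉ (F8 u v w z).image f := by
    intro h
    obtain ⟨b, _, rfl⟩ := Finset.mem_image.mp h
    exact hxy rfl
  have h9 : (insert y ((F8 u v w z).image f)).card = 9 := by
    rw [Finset.card_insert_of_notMem hy', hcard]
  refine h9.symm.le.trans ?_
  rw [← Set.ncard_coe_finset]
  apply Set.ncard_le_ncard _ hfin
  intro a ha
  rw [Finset.mem_coe, Finset.mem_insert] at ha
  rcases ha with rfl | ha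
  · exact hy
  · exact hmem a ha

end Pool.Agent.TH510.K9
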