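import Pool.Agent.TH510.K9.Cert

set_option autoImplicit false
set_option maxRecDepth 100000

/-!
# Soundness of the certificates
-/

namespace Pool.Agent.TH510.K9

open Pool.Agent.Helper770.VanKampen Finset

/-- The linear extension of `m` to bit masks. -/
def lin (m : ℕ → ZMod 2) (x : ℕ) : ZMod 2 := ∑ i ∈ range 729, if x.testBit i then m i else 0

theorem lin_zero (m : ℕ → ZMod 2) : lin m 0 = 0 := by simp [lin]

theorem lin_xor (m : ℕ → ZMod 2) (x y : ℕ) : lin m (x ^^^ y) = lin m x + lin m y := by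
  rw [lin, lin, lin, ← sum_add_distrib]
  refine sum_congr rfl fun i _ => ?_
  rw [Nat.testBit_xor]
  have h2 : m i + m i = 0 := CharTwo.add_self_eq_zero _
  cases x.testBit i <;> cases y.testBit i <;> simp [h2]

theorem lin_two_pow (m : ℕ → ZMod 2) (k : ℕ) (hk : k < 729) : lin m (2 ^ k) = m k := by
  rw [lin]
  rw [sum_eq_single k]
  · simp
  · intro i _ hi
    rw [Nat.testBit_two_pow]
    simp [Ne.symm hi]
  · intro h; exact absurd (mem_range.mpr hk) h

theorem lab_lt {a b c : ℕ} (ha : a < 9) (hb : b < 9) (hc : c < 9) : lab a b c < 729 := by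
  unfold lab; omega

theorem betaB_eq (a b c d : Fin 9) :
    beta a b c d = if betaB a b c d then 1 else 0 := by
  revert a b c d
  decide +kernel

/-- The vertex with the given number. -/
def F (k : ℕ) : Fin 9 := Fin.ofNat 9 k

theorem F_val {k : ℕ} (hk : k < 9) : ((F k : Fin 9) : ℕ) = k := by
  simp [F, Nat.mod_eq_of_lt hk]

theorem F_coe (a : Fin 9) : F (a : ℕ) = a := by
  apply Fin.ext; exact F_val a.2

/-- The label function on numbers. -/
def mN (m : Fin 9 → Fin 9 → Fin 9 → ZMod 2) (k : ℕ) : ZMod 2 :=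
  m (F (k / 81)) (F (k / 9 % 9)) (F (k % 9))

theorem mN_lab (m : Fin 9 → Fin 9 → Fin 9 → ZMod 2) (a b c : Fin 9) :
    mN m (lab a b c) = m a b c := by
  have h1 : lab a b c / 81 = a := by have := a.2; have := b.2; have := c.2; unfold lab; omega
  have h2 : lab a b c / 9 % 9 = b := by have := a.2; have := b.2; have := c.2; unfold lab; omega
  have h3 : lab a b c % 9 = c := by have := a.2; have := b.2; have := c.2; unfold lab; omega
  rw [mN, h1, h2, h3, F_coe, F_coe, F_coe]

theorem lin_mask (B : Fin 9 → Fin 9 → Bool) (m : Fin 9 → Fin 9 → Fin 9 → ZMod 2)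
    (hm : ∀ a b c d : Fin 9, a < b → c < d → B a b = true → B c d = true →
      a ≠ c → a ≠ d → b ≠ c → b ≠ d → beta a b c d = m a b c + m a b d + m c d a + m c d b)
    (L : List ℕ) (hL : ∀ x ∈ L, okq x = true ∧ B (F (qA x)) (F (qB x)) = true ∧
      B (F (qC x)) (F (qD x)) = true) :
    lin (mN m) (maskOf L) = if parOf L then 1 else 0 := by
  induction L with
  | nil => simp [maskOf, parOf, lin_zero]
  | cons x L ih =>
    have ih' := ih fun y hy => hL y (List.mem_cons_of_mem _ hy)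
    obtain ⟨hx, hab, hcd⟩ := hL x List.mem_cons_self
    rw [maskOf, parOf, lin_xor, ih']
    have hx' := of_decide_eq_true hx
    obtain ⟨h1, h2, h3, h4, h5, h6, h7, h8⟩ := hx'
    have hA : qA x < 9 := h1.trans h2
    have hC : qC x < 9 := h3.trans h4
    set a := F (qA x) with ha
    set b := F (qB x) with hb
    set c := F (qC x) with hc
    set d := F (qD x) with hd
    have ea : qA x = (a : ℕ) := (F_val hA).symm
    have eb : qB x = (b : ℕ) := (F_val h2).symm
    have ec : qC x = (c : ℕ) := (F_val hC).symm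
    have ed : qD x = (d : ℕ) := (F_val h4).symm
    have key := hm a b c d (Fin.lt_def.mpr (by omega)) (Fin.lt_def.mpr (by omega)) hab hcd
      (fun h => h5 (by rw [ea, ec, h])) (fun h => h6 (by rw [ea, ed, h]))
      (fun h => h7 (by rw [eb, ec, h])) (fun h => h8 (by rw [eb, ed, h]))
    rw [ea, eb, ec, ed]
    have hfour : lin (mN m) (four a b c d) = beta a b c d := by
      rw [key, four, lin_xor, lin_xor, lin_xor, lin_two_pow _ _ (lab_lt a.2 b.2 c.2),
        lin_two_pow _ _ (lab_lt a.2 b.2 d.2), lin_two_pow _ _ (lab_lt c.2 d.2 a.2),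
        lin_two_pow _ _ (lab_lt c.2 d.2 b.2), mN_lab, mN_lab, mN_lab, mN_lab]
      ring
    rw [hfour, betaB_eq]
    have one : (1 : ZMod 2) + 1 = 0 := rfl
    cases betaB a b c d <;> cases parOf L <;> simp [one]

theorem iter (B : Fin 9 → Fin 9 → Bool) (τ : Equiv.Perm (Fin 9))
    (hc : ∀ u v, u ≠ v → B (τ u) (τ v) = !B u v) (n : ℕ) (u v : Fin 9) (huv : u ≠ v) :
    B ((τ ^ n) u) ((τ ^ n) v) = (B u v ^^ Nat.beq (n % 2) 1) := by
  induction n with
  | zero => simp only [pow_zero, Equiv.Perm.coe_one, id_eq]; cases B u v <;> rfl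
  | succ n ih =>
    rw [pow_succ', Equiv.Perm.mul_apply, Equiv.Perm.mul_apply,
      hc _ _ (fun h => huv ((τ ^ n).injective h)), ih]
    rcases Nat.mod_two_eq_zero_or_one n with h | h
    · have h' : (n + 1) % 2 = 1 := by omega
      rw [h, h']; cases B u v <;> rfl
    · have h' : (n + 1) % 2 = 0 := by omega
      rw [h, h']; cases B u v <;> rfl

/-- The table `tab` describes the orbits of pairs under `τ`. -/
def tabOK (τ : Equiv.Perm (Fin 9)) (tab : List ℕ) (reps : List (Fin 9 × Fin 9)) : Prop :=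
  ∀ i j : Fin 9, i < j →
    tab.getD (9 * i + j) 0 % 16 < reps.length ∧
    (reps.getD (tab.getD (9 * i + j) 0 % 16) (0, 0)).1 ≠
      (reps.getD (tab.getD (9 * i + j) 0 % 16) (0, 0)).2 ∧
    (((τ ^ (tab.getD (9 * i + j) 0 / 16)) (reps.getD (tab.getD (9 * i + j) 0 % 16) (0, 0)).1 = i ∧
      (τ ^ (tab.getD (9 * i + j) 0 / 16)) (reps.getD (tab.getD (9 * i + j) 0 % 16) (0, 0)).2 = j) ∨
    ((τ ^ (tab.getD (9 * i + j) 0 / 16)) (reps.getD (tab.getD (9 * i + j) 0 % 16) (0, 0)).1 = j ∧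
      (τ ^ (tab.getD (9 * i + j) 0 / 16)) (reps.getD (tab.getD (9 * i + j) 0 % 16) (0, 0)).2 = i))

instance (τ : Equiv.Perm (Fin 9)) (tab : List ℕ) (reps : List (Fin 9 × Fin 9)) :
    Decidable (tabOK τ tab reps) := by unfold tabOK; infer_instance

theorem tab8_ok : tabOK t8 tab8 reps8 := by decide +kernel

theorem tab44_ok : tabOK t44 tab44 reps44 := by decide +kernel

theorem val_spec (B : Fin 9 → Fin 9 → Bool) (hsym : ∀ u v, B u v = B v u)
    (τ : Equiv.Perm (Fin 9)) (hc : ∀ u v, u ≠ v → B (τ u) (τ v) = !B u v)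
    (tab : List ℕ) (reps : List (Fin 9 × Fin 9)) (hok : tabOK τ tab reps) (X : ℕ → Bool)
    (hX : ∀ k, k < reps.length → X k = B (reps.getD k (0, 0)).1 (reps.getD k (0, 0)).2)
    (i j : Fin 9) (hij : i < j) : val tab X (9 * i + j) = B i j := by
  obtain ⟨h0, h1, h2⟩ := hok i j hij
  rw [val, hX _ h0]
  have := iter B τ hc (tab.getD (9 * i + j) 0 / 16) _ _ h1
  rw [← this]
  rcases h2 with ⟨e1, e2⟩ | ⟨e1, e2⟩
  · rw [e1, e2]
  · rw [e1, e2]; exact hsym _ _

theorem contra (B : Fin 9 → Fin 9 → Bool) (hsym : ∀ u v, B u v = B v u)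
    (τ : Equiv.Perm (Fin 9)) (hc : ∀ u v, u ≠ v → B (τ u) (τ v) = !B u v)
    (tab : List ℕ) (reps : List (Fin 9 × Fin 9)) (hok : tabOK τ tab reps) (X : ℕ → Bool)
    (hX : ∀ k, k < reps.length → X k = B (reps.getD k (0, 0)).1 (reps.getD k (0, 0)).2)
    (hcov : covered (mk (val tab X) 81) = true)
    (m : Fin 9 → Fin 9 → Fin 9 → ZMod 2)
    (hm : ∀ a b c d : Fin 9, a < b → c < d → B a b = true → B c d = true →
      a ≠ c → a ≠ d → b ≠ c → b ≠ d → beta a b c d = m a b c + m a b d + m c d a + m c d b) :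
    False := by
  rw [covered, List.any_eq_true] at hcov
  obtain ⟨c, hc1, hc2⟩ := hcov
  have hcc := Nat.eq_of_beq_eq_true hc2
  have hok2 := List.all_eq_true.mp certs_ok c hc1
  rw [certOK, Bool.and_eq_true, Bool.and_eq_true] at hok2
  obtain ⟨h1, h2, h3⟩ := hok2
  have h2' := Nat.eq_of_beq_eq_true h2
  have hbit : ∀ n, c.1.testBit n = true → val tab X n = true := by
    intro n hn
    rw [← hcc, Nat.testBit_and, Bool.and_eq_true] at hn
    exact testBit_mk _ _ _ hn.1
  have hL : ∀ x ∈ c.2, okq x = true ∧ B (F (qA x)) (F (qB x)) = true ∧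
      B (F (qC x)) (F (qD x)) = true := by
    intro x hx
    have hx1 := List.all_eq_true.mp h1 x hx
    rw [Bool.and_eq_true, Bool.and_eq_true] at hx1
    obtain ⟨g1, g2, g3⟩ := hx1
    have hx' := of_decide_eq_true g1
    obtain ⟨k1, k2, k3, k4, k5, k6, k7, k8⟩ := hx'
    refine ⟨g1, ?_, ?_⟩
    · have hlt : F (qA x) < F (qB x) := by
        rw [Fin.lt_def, F_val (k1.trans k2), F_val k2]; exact k1
      rw [← val_spec B hsym τ hc tab reps hok X hX _ _ hlt, F_val (k1.trans k2), F_val k2]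
      exact hbit _ g2
    · have hlt : F (qC x) < F (qD x) := by
        rw [Fin.lt_def, F_val (k3.trans k4), F_val k4]; exact k3
      rw [← val_spec B hsym τ hc tab reps hok X hX _ _ hlt, F_val (k3.trans k4), F_val k4]
      exact hbit _ g3
  have := lin_mask B m hm c.2 hL
  rw [h2', h3, lin_zero] at this
  simp at this

/-- No self-complementary graph on nine vertices satisfies the van Kampen relations. -/
theorem no_labels (B : Fin 9 → Fin 9 → Bool) (hsym : ∀ u v, B u v = B v u)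
    (τ : Equiv.Perm (Fin 9)) (hτ : τ = t8 ∨ τ = t44)
    (hc : ∀ u v, u ≠ v → B (τ u) (τ v) = !B u v)
    (m : Fin 9 → Fin 9 → Fin 9 → ZMod 2)
    (hm : ∀ a b c d : Fin 9, a < b → c < d → B a b = true → B c d = true →
      a ≠ c → a ≠ d → b ≠ c → b ≠ d → beta a b c d = m a b c + m a b d + m c d a + m c d b) :
    False := by
  rcases hτ with rfl | rfl
  · refine contra B hsym t8 hc tab8 reps8 tab8_ok
      (X5 (B 0 1) (B 0 2) (B 0 3) (B 0 4) (B 0 8)) ?_ (enum8 _ _ _ _ _) m hm
    intro k hk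
    have hk' : k < 5 := hk
    interval_cases k <;> rfl
  · refine contra B hsym t44 hc tab44 reps44 tab44_ok
      (X10 (B 0 1) (B 0 2) (B 0 4) (B 0 5) (B 0 6) (B 0 7) (B 0 8) (B 4 5) (B 4 6) (B 4 8)) ?_
      (enum44 _ _ _ _ _ _ _ _ _ _) m hm
    intro k hk
    have hk' : k < 10 := hk
    interval_cases k <;> rfl

end Pool.Agent.TH510.K9
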